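import Pool.Agent.TH691.LC.Lower

/-!
The exact value of `t(r)` for all `3 ≤ r ≤ 13`: `t(r) = 1` for `r ≤ 5`, `t(r) = 2` for
`6 ≤ r ≤ 10` and `t(r) = 3` for `11 ≤ r ≤ 13`.
-/

namespace Pool.Agent.Results.MP_51656a_co.SmallUniformities

open TH691.LC

/-- The largest covering number `t(r)` of an `r`-uniform hypergraph all of whose subhypergraphs on
at most `3 r - 3` vertices have covering number at most one is `1` for `3 ≤ r ≤ 5`, `2` for
`6 ≤ r ≤ 10` and `3` for `11 ≤ r ≤ 13`. -/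
theorem result : ∀ r : ℕ, (3 ≤ r → r ≤ 5 → IsMaxTau r 1) ∧ (6 ≤ r → r ≤ 10 → IsMaxTau r 2) ∧
    (11 ≤ r → r ≤ 13 → IsMaxTau r 3) :=
  fun r => ⟨one r, two r, three r⟩

end Pool.Agent.Results.MP_51656a_co.SmallUniformities
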